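import Pool.Agent.AT2.Stmts
import Pool.Agent.Helper43_AT3.QT2
import Pool.Agent.Helper3_C2.GDV
import Pool.Agent.Helper97_K9.NZR

/-!
# AT2, row TYA: the blocks of `N(Q)/Q` which are not over a conjugate of `(U, f)`
-/

open scoped BigOperators

noncomputable section

namespace Pool.Agent.PP.T2.H65

open Pool.Agent.Helper51_AWC Pool.Agent.Helper79_WRA Pool.Agent.PP Pool.Agent.PP.KF
open Pool.Agent.PP.K9 Pool.Agent.PP.K9.H97 Pool.Agent.PP.H75 Pool.Agent.PP.T3

attribute [local instance] Ideal.Quotient.field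

set_option linter.unusedSectionVars false

section push

variable {F A B : Type} [Field F] [Group A] [Group B] [Finite A] [Finite B]

/-- the image of an invariant function on the centraliser of the image of `Q` -/
theorem push_br_inv {ℓ : ℕ} (hF : GoodF ℓ F) {p : A →* B} {Q : Subgroup A} (hQ : IsPGroup ℓ Q)
    {e : A → F} (he : H66.Inv Q e) {y : B}
    (hy : y ∈ Subgroup.centralizer ((Q.map p : Subgroup B) : Set B)) :
    push p e y = push p (br Q e) y := by
  classical
  have := Fintype.ofFinite A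
  have h1 := H66.orb_conj (F := F) hF hQ (fun x : A => if p x = y then e x else 0) (by
    intro q hq t
    have h2 : p (q * t * q⁻¹) = y ↔ p t = y := by
      rw [map_mul, map_mul, map_inv]
      have h3 := Subgroup.mem_centralizer_iff.1 hy (p q) ⟨q, hq, rfl⟩
      constructor
      · intro h4
        have h5 : p t = (p q)⁻¹ * (p q * p t * (p q)⁻¹) * p q := by group
        rw [h5, h4, mul_assoc, ← h3, inv_mul_cancel_left]
      · intro h4
        rw [h4, h3, mul_inv_cancel_right]
    change (if p (q * t * q⁻¹) = y then e (q * t * q⁻¹) else 0) = if p t = y then e t else 0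
    by_cases h : p t = y
    · rw [if_pos h, if_pos (h2.2 h), he q hq]
    · rw [if_neg h, if_neg (fun h' => h (h2.1 h'))])
  rw [finsum_eq_sum_of_fintype, finsum_eq_sum_of_fintype] at h1
  rw [push_eq, push_eq, h1]
  refine Finset.sum_congr rfl fun x _ => ?_
  by_cases hx : x ∈ Subgroup.centralizer (Q : Set A)
  · rw [H66.br_of_mem hx, H66.br_of_mem hx]
  · rw [H66.br_of_not_mem hx, H66.br_of_not_mem hx, ite_self]

/-- the image of an invariant function is invariant under the image -/
theorem push_inv {p : A →* B} {Q : Subgroup A} {e : A → F} (he : H66.Inv Q e) :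
    H66.Inv (Q.map p) (push p e) := by
  rintro _ ⟨q, hq, rfl⟩ t
  have h1 : cj q e = e := (cj_eq_iff q e).2 (he q hq)
  have h2 : cj (p q) (push p e) = push p e := by
    rw [← T3.H43.push_cj, h1]
  exact (cj_eq_iff _ _).1 h2 t

/-- conjugation and the Brauer map -/
theorem cj_br (k : A) (V : Subgroup A) (a : A → F) : br (conjS k V) (cj k a) = cj k (br V a) := by
  funext t
  have h1 : t ∈ Subgroup.centralizer ((conjS k V : Subgroup A) : Set A) ↔
      k⁻¹ * t * k ∈ Subgroup.centralizer (V : Set A) := by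
    rw [Subgroup.mem_centralizer_iff, Subgroup.mem_centralizer_iff]
    constructor
    · intro h v hv
      have h2 := h (k * v * k⁻¹) (mem_conjS.2 (by
        have h3 : k⁻¹ * (k * v * k⁻¹) * k = v := by group
        rwa [h3]))
      calc v * (k⁻¹ * t * k) = k⁻¹ * ((k * v * k⁻¹) * t) * k := by group
        _ = k⁻¹ * (t * (k * v * k⁻¹)) * k := by rw [h2]
        _ = (k⁻¹ * t * k) * v := by group
    · intro h v hv
      have h2 := h (k⁻¹ * v * k) (mem_conjS.1 hv)
      calc v * t = k * ((k⁻¹ * v * k) * (k⁻¹ * t * k)) * k⁻¹ := by group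
        _ = k * ((k⁻¹ * t * k) * (k⁻¹ * v * k)) * k⁻¹ := by rw [h2]
        _ = t * v := by group
  by_cases ht : t ∈ Subgroup.centralizer ((conjS k V : Subgroup A) : Set A)
  · rw [br_in _ ht]
    change a (k⁻¹ * t * k) = br V a (k⁻¹ * t * k)
    rw [br_in _ (h1.1 ht)]
  · rw [br_out _ ht]
    change 0 = br V a (k⁻¹ * t * k)
    rw [br_out _ (fun h => ht (h1.2 h))]

end push

/-- row TYA -/
theorem tya (pwu : PwuStmt) (qt1 : Qt1Stmt) (qt2 : Qt2Stmt) (lcj : LcjStmt) : TyaStmt := by
  intro ℓ _ M _ hM G _ _ e V γ hLd a ha hexp f hFs Q hQp A _ _ p hp hker f₁ hf₁ hff hno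
  classical
  have hF : GoodF ℓ (FF M) := H50.fld ℓ Fact.out M hM
  obtain ⟨k, hQk, hTp⟩ := qt1 ℓ M hM G e V γ hLd Q hQp A p hp hker f₁ hf₁ hff
  obtain ⟨hLdk, hixk⟩ := lcj ℓ (FF M) hF G e V γ hLd k
  obtain ⟨γ', hLd', hix'⟩ := qt2 ℓ M hM G e (conjS k V) (cj k γ) hLdk Q hQk A p hp hker f₁ hf₁
    hff hTp
  obtain ⟨W, hW⟩ : ∃ W : Subgroup G, W = conjS k V := ⟨_, rfl⟩
  rw [← hW] at hQk hTp hLdk hixk hLd' hix'
  have hWp : IsPGroup ℓ W := hLdk.tp.pg
  have hWQ : W ≤ Subgroup.centralizer (Q : Set G) := by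
    intro w hw
    rw [Subgroup.mem_centralizer_iff]
    intro x hx
    exact hLdk.ab x (hQk hx) w hw
  have hWN : W ≤ Subgroup.normalizer (Q : Set G) :=
    hWQ.trans (Subgroup.centralizer_le_normalizer _)
  obtain ⟨V₁, hV₁⟩ : ∃ V₁ : Subgroup (Subgroup.normalizer (Q : Set G)),
    V₁ = W.subgroupOf (Subgroup.normalizer (Q : Set G)) := ⟨_, rfl⟩
  rw [← hV₁] at hTp hLd' hix'
  have hV₁p : IsPGroup ℓ V₁ := by
    rw [hV₁]
    exact hWp.comap_of_injective (Subgroup.normalizer (Q : Set G)).subtype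
      (Subgroup.normalizer (Q : Set G)).subtype_injective
  have hV₁c : ∀ t : Subgroup.normalizer (Q : Set G),
      t ∈ Subgroup.centralizer (V₁ : Set (Subgroup.normalizer (Q : Set G))) ↔
        (t : G) ∈ Subgroup.centralizer (W : Set G) := by
    rw [hV₁]
    exact cent_sub hWN
  have hCWQ : Subgroup.centralizer (W : Set G) ≤ Subgroup.centralizer (Q : Set G) :=
    Subgroup.centralizer_le hQk
  -- `V` is isomorphic to `V₁`
  have hiso : Nonempty (V ≃* V₁) := by
    subst hW
    subst hV₁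
    exact ⟨(conjSEquiv k V).trans (Subgroup.subgroupOfEquivOfLe hWN).symm⟩
  obtain ⟨φ⟩ := hiso
  have hexp₁ : Monoid.exponent V₁ = ℓ ^ a := by
    rw [← hexp]
    exact (Monoid.exponent_eq_of_mulEquiv φ).symm
  have hV₁ab : ∀ x ∈ V₁, ∀ y ∈ V₁, x * y = y * x := by
    intro x hx y hy
    rw [hV₁] at hx hy
    exact Subtype.ext (hLdk.ab _ (Subgroup.mem_subgroupOf.1 hx) _ (Subgroup.mem_subgroupOf.1 hy))
  refine ⟨V₁.map p, γ', hLd', ?_, ⟨(p.subgroupMap V₁).comp φ.toMonoidHom, ?_⟩, ?_⟩
  · obtain ⟨-, -, -, -, -, -, -, h8⟩ := pwu (Subgroup.normalizer (Q : Set G)) (ℓ ^ (a - 1)) V₁ hV₁ab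
    obtain ⟨-, h9⟩ := h8 ℓ a ha hexp₁ rfl
    rcases h9 A p with h10 | h10
    · exact h10
    · exfalso
      obtain ⟨-, -, -, -, h5, -, -, -⟩ := pwu G (ℓ ^ (a - 1)) V hLd.ab
      obtain ⟨-, h2', -, -, -, -, h7, -⟩ := pwu G (ℓ ^ (a - 1)) W hLdk.ab
      have hUQ : conjS k (Uw (ℓ ^ (a - 1)) V) ≤ Q := by
        rw [← h5 k, ← hW]
        intro x hx
        have hxN : x ∈ Subgroup.normalizer (Q : Set G) := hWN (h2' hx)
        have h11 : (⟨x, hxN⟩ : Subgroup.normalizer (Q : Set G)) ∈ Uw (ℓ ^ (a - 1)) V₁ := by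
          rw [hV₁, h7 _ hWN]
          exact Subgroup.mem_subgroupOf.2 hx
        have h12 := h10 h11
        rw [hker] at h12
        exact Subgroup.mem_subgroupOf.1 h12
      have h13 := hno k hUQ
      -- invariance
      have hfinv : ∀ v ∈ V, ∀ x, f (v * x * v⁻¹) = f x := by
        intro v hv x
        have hvX : v ∈ Subgroup.normalizer ((Uw (ℓ ^ (a - 1)) V : Subgroup G) : Set G) :=
          hFs.nle (Subgroup.le_normalizer hv)
        exact C2.H3.ix_inv hFs.blk.ix hvX x
      have hkf : H66.Inv W (cj k f) := by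
        intro w hw x
        rw [hW] at hw
        have h1 := hfinv _ (mem_conjS.1 hw) (k⁻¹ * x * k)
        change f (k⁻¹ * (w * x * w⁻¹) * k) = f (k⁻¹ * x * k)
        rw [← h1]
        congr 1
        group
      have hbrinv : ∀ b : G → FF M, H66.Inv W b →
          H66.Inv V₁ (fun t : Subgroup.normalizer (Q : Set G) => br Q b t) := by
        intro b hb w hw x
        rw [hV₁] at hw
        have hw1 : (w : G) ∈ W := Subgroup.mem_subgroupOf.1 hw
        change br Q b ((w : G) * x * (w : G)⁻¹) = br Q b x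
        have hwQ := hWQ hw1
        by_cases hx : (x : G) ∈ Subgroup.centralizer (Q : Set G)
        · rw [br_in _ hx, br_in _ (mul_mem (mul_mem hwQ hx) (inv_mem hwQ))]
          exact hb _ hw1 _
        · rw [br_out _ hx, br_out]
          intro h
          apply hx
          have h1 := mul_mem (mul_mem (inv_mem hwQ) h) hwQ
          have h2 : (w : G)⁻¹ * ((w : G) * x * (w : G)⁻¹) * w = x := by group
          rwa [h2] at h1
      have hbb : ∀ b : G → FF M, br V₁ (fun t : Subgroup.normalizer (Q : Set G) => br Q b t) =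
          fun t : Subgroup.normalizer (Q : Set G) => br W b t := by
        intro b
        funext t
        by_cases ht : (t : G) ∈ Subgroup.centralizer (W : Set G)
        · rw [br_in _ ((hV₁c t).2 ht), br_in _ ht, br_in _ (hCWQ ht)]
        · rw [br_out _ (fun h => ht ((hV₁c t).1 h)), br_out _ ht]
      have hWe : br W (cj k f) = br W e := by
        rw [hW, cj_br, hFs.brV, ← cj_br, cj_isCl k hLd.blk.1.1]
      have heW : H66.Inv W e := H66.IsCl.inv hLd.blk.1.1 W
      obtain ⟨f', hf'⟩ : ∃ f' : A → FF M,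
        f' = push p (fun t : Subgroup.normalizer (Q : Set G) => br Q e t) := ⟨_, rfl⟩
      obtain ⟨f'', hf''⟩ : ∃ f'' : A → FF M,
        f'' = push p (fun t : Subgroup.normalizer (Q : Set G) => br Q (cj k f) t) := ⟨_, rfl⟩
      rw [← hf'] at hff
      rw [← hf''] at h13
      have hbr : br (V₁.map p) f' = br (V₁.map p) f'' := by
        funext y
        by_cases hy : y ∈ Subgroup.centralizer ((V₁.map p : Subgroup A) : Set A)
        · rw [br_in _ hy, br_in _ hy, hf', hf'', push_br_inv hF hV₁p (hbrinv e heW) hy,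
            push_br_inv hF hV₁p (hbrinv _ hkf) hy, hbb, hbb, hWe]
        · rw [br_out _ hy, br_out _ hy]
      have hi' : H66.Inv (V₁.map p) f' := by
        rw [hf']
        exact push_inv (hbrinv e heW)
      have hi'' : H66.Inv (V₁.map p) f'' := by
        rw [hf'']
        exact push_inv (hbrinv _ hkf)
      have hi₁ : H66.Inv (V₁.map p) f₁ := H66.IsCl.inv hf₁.1.1 _
      have hVp : IsPGroup ℓ (V₁.map p) := hTp.pg
      have h14 : br (V₁.map p) f₁ = 0 := by
        rw [← hff, H66.br_mulF hF hVp hi' hi₁, hbr, ← H66.br_mulF hF hVp hi'' hi₁, h13]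
        funext t
        by_cases ht : t ∈ Subgroup.centralizer ((V₁.map p : Subgroup A) : Set A)
        · rw [br_in _ ht]
        · rw [br_out _ ht]
          rfl
      exact C2.H3.br_ne_of_gd hTp.gd h14
  · intro y
    obtain ⟨x, hx⟩ := p.subgroupMap_surjective V₁ y
    obtain ⟨v, hv⟩ := φ.surjective x
    refine ⟨v, ?_⟩
    change p.subgroupMap V₁ (φ v) = y
    rw [hv, hx]
  · rw [hixk] at hix'
    exact hix'

end Pool.Agent.PP.T2.H65
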